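import Pool.Agent.Helper49.LC.St

set_option autoImplicit false

open scoped ContDiff

namespace Pool.Agent.Helper95.LC

open Pool.Agent.Helper14.LK Pool.Agent.Helper49.LC

theorem hIP1 (hSWG : StSWG) (hPRD : StPRD) (hGRP : StGRP) : StIP1 := by
  intro n a R e f f' hR ha hf
  have ha' : 4 * R / (1 : ℝ) < ‖a‖ := by rw [div_one]; exact ha
  obtain ⟨S1, -, -, -, S5, -, S7, -, S9, -, -, S12⟩ :=
    hSWG n a 1 R hR one_pos (le_refl _) ha'
  obtain ⟨-, -, -, -, G5, G6, -⟩ := hGRP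
  have hfix := (G6 n _ _ f f' hf).2.1
  have hpow : ∀ k : ℕ, (0 : ℝ) < 1 ^ k := fun k => pow_pos one_pos k
  have hSD : ∀ k : ℕ, SD (fun w => Tk a 1 k (f (Ti a 1 k w))) (fun w => Tk a 1 k (f' (Ti a 1 k w))) :=
    fun k => (G6 n _ _ _ _ (G5 n _ _ f f' (ce a 1 k) (1 ^ k) (hpow k) hf)).1
  have hnot : ∀ (k : ℕ) (w : WW n), w ∉ VV a 1 R k → Tk a 1 k (f (Ti a 1 k w)) = w := by
    intro k w hw
    have h1 : ‖a‖ / 2 + 2 * R ≤ ‖Ti a 1 k w - ((1 / 2 : ℝ) • a, 0)‖ := by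
      by_contra hc
      exact hw ((S7 k w).2 (not_le.1 hc).le)
    rw [(hfix _ h1).1]
    exact (S5 k w).2.1
  have hdis : ∀ i j : ℕ, i ≠ j → Disjoint (VV a 1 R (2 * i + e)) (VV a 1 R (2 * j + e)) := by
    intro i j hij
    rcases lt_or_gt_of_ne hij with h | h
    · exact S1 _ _ (by omega)
    · exact (S1 _ _ (by omega)).symm
  obtain ⟨F, G, P1, P2, P3, P4, P5⟩ := hPRD n
    (fun j w => Tk a 1 (2 * j + e) (f (Ti a 1 (2 * j + e) w)))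
    (fun j w => Tk a 1 (2 * j + e) (f' (Ti a 1 (2 * j + e) w)))
    (fun j => VV a 1 R (2 * j + e)) (fun j => hSD _) (fun j => S9 _) hdis
    (fun j w hw => hnot _ w hw)
  have hnb : ∀ w : WW n, ∃ O : Set (WW n), IsOpen O ∧ w ∈ O ∧
      ∃ N, ∀ j, N ≤ j → Disjoint O (VV a 1 R (2 * j + e)) := by
    intro w
    refine ⟨Metric.ball 0 (‖w‖ + 1), Metric.isOpen_ball, ?_, ?_⟩
    · rw [mem_ball_zero_iff]
      linarith
    · have hapos : 0 < ‖a‖ := by linarith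
      obtain ⟨N, hN⟩ := exists_nat_ge ((‖w‖ + 1 + 2 * R) / ‖a‖)
      refine ⟨N, fun j hj => ?_⟩
      rw [Set.disjoint_left]
      intro z hz1 hz2
      rw [mem_ball_zero_iff] at hz1
      have h1 := S12 rfl (2 * j + e) z hz2
      have h2 : ‖w‖ + 1 + 2 * R ≤ N * ‖a‖ := (div_le_iff₀ hapos).1 hN
      have h3 : (N : ℝ) ≤ ((2 * j + e : ℕ) : ℝ) := by
        exact_mod_cast (by omega : N ≤ 2 * j + e)
      have h4 : (N : ℝ) * ‖a‖ ≤ ((2 * j + e : ℕ) : ℝ) * ‖a‖ :=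
        mul_le_mul_of_nonneg_right h3 hapos.le
      linarith
  have hall : ∀ w : WW n, ContDiffAt ℝ ∞ F w ∧ ContDiffAt ℝ ∞ G w ∧
      (∀ a b, om (fderiv ℝ F w a) (fderiv ℝ F w b) = om a b) ∧
      ∀ a b, om (fderiv ℝ G w a) (fderiv ℝ G w b) = om a b := by
    intro w
    obtain ⟨O, hO1, hO2, hO3⟩ := hnb w
    exact P5 w O hO1 hO2 hO3
  refine ⟨F, G, ⟨P1, P2, ?_, ?_, P4⟩, ?_⟩
  · intro j w hw
    exact ⟨(P3 j w hw).1, (P3 j w hw).2.1⟩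
  · intro j w hw
    exact ⟨(P3 j w hw).2.2.1, (P3 j w hw).2.2.2⟩
  · exact ⟨contDiff_iff_contDiffAt.2 fun w => (hall w).1,
      contDiff_iff_contDiffAt.2 fun w => (hall w).2.1, P1, P2, fun w => (hall w).2.2.1⟩

end Pool.Agent.Helper95.LC
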