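import Pool.Agent.Helper49.LC.St

set_option autoImplicit false

open scoped ContDiff

namespace Pool.Agent.Helper95.LC

open Pool.Agent.Helper14.LK Pool.Agent.Helper49.LC

theorem hWE3 (hSIN : StSIN) : StWE3 := by
  intro n ι W R δ hδ hW hinj hι hfar hsym
  have hUo : IsOpen {w : WW n | ‖w.2‖ < δ} :=
    isOpen_lt (continuous_snd.norm) continuous_const
  have hder : ∀ w ∈ {w : WW n | ‖w.2‖ < δ}, ∀ a, fderiv ℝ W w a = 0 → a = 0 := by
    intro w hw a ha
    apply eq_of_om_eq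
    intro c
    rw [← hsym w hw a c, ha, om_zero_left, om_zero_left]
  obtain ⟨hopen, -⟩ := hSIN (WW n) W {w : WW n | ‖w.2‖ < δ} hW hUo hinj hder
  have hKc : IsCompact (W '' ((Metric.closedBall (0 : EE n) (|R| + 1)) ×ˢ {(0 : EE n)})) :=
    ((isCompact_closedBall _ _).prod isCompact_singleton).image hW.continuous
  have hKU : W '' ((Metric.closedBall (0 : EE n) (|R| + 1)) ×ˢ {(0 : EE n)}) ⊆
      W '' {w : WW n | ‖w.2‖ < δ} := by
    apply Set.image_mono
    rintro ⟨x, y⟩ hxy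
    have hy : y = 0 := hxy.2
    show ‖y‖ < δ
    rw [hy, norm_zero]
    exact hδ
  obtain ⟨ε₁, hε₁, hth⟩ := hKc.exists_thickening_subset_open hopen hKU
  refine ⟨min ε₁ (min δ 1), lt_min hε₁ (lt_min hδ one_pos), ?_⟩
  rintro w ⟨x, hx⟩
  by_cases hxR : ‖x‖ ≤ |R| + 1
  · have hmem : w ∈ Metric.thickening ε₁
        (W '' ((Metric.closedBall (0 : EE n) (|R| + 1)) ×ˢ {(0 : EE n)})) := by
      rw [Metric.mem_thickening_iff]
      refine ⟨W (x, 0), ⟨(x, 0), ⟨?_, rfl⟩, rfl⟩, ?_⟩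
      · show x ∈ Metric.closedBall (0 : EE n) (|R| + 1)
        rw [mem_closedBall_zero_iff]
        exact hxR
      · rw [hι x, dist_eq_norm]
        exact lt_of_lt_of_le hx (min_le_left _ _)
    obtain ⟨w', hw', hww⟩ := hth hmem
    exact ⟨w', hw', hww⟩
  · have hx1 : |R| + 1 < ‖x‖ := not_le.1 hxR
    have hRx : R ≤ ‖((x, 0) : WW n).1‖ := by
      show R ≤ ‖x‖
      linarith [le_abs_self R]
    have hix : ι x = (x, 0) := by
      rw [← hι x]
      exact hfar (x, 0) hRx
    rw [hix] at hx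
    have h1 : ‖w.1 - x‖ < 1 := by
      have h := norm_fst_le (w - ((x, 0) : WW n))
      exact lt_of_le_of_lt h (lt_of_lt_of_le hx ((min_le_right _ _).trans (min_le_right _ _)))
    have h2 : ‖w.2‖ < δ := by
      have h := norm_snd_le (w - ((x, 0) : WW n))
      have e : (w - ((x, 0) : WW n)).2 = w.2 := by
        show w.2 - 0 = w.2
        rw [sub_zero]
      rw [e] at h
      exact lt_of_le_of_lt h (lt_of_lt_of_le hx ((min_le_right _ _).trans (min_le_left _ _)))
    refine ⟨w, h2, hfar w ?_⟩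
    have h3 : ‖x‖ ≤ ‖w.1‖ + ‖w.1 - x‖ := by
      have h := norm_sub_le w.1 (w.1 - x)
      have e : w.1 - (w.1 - x) = x := by abel
      rw [e] at h
      exact h
    linarith [le_abs_self R]

end Pool.Agent.Helper95.LC
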